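import Pool.Agent.H.MP_abf7f7_an.PairDef
import Pool.Agent.H.MP_abf7f7_an.Fam2
import Pool.Agent.H.MP_abf7f7_an.Fam3

set_option autoImplicit false

namespace Pool.Agent.Results.MP_abf7f7_an.BorderedOrders

open Matrix Pool.Agent.H.MP_abf7f7_an

/-- `h` is the order of a Hadamard matrix. -/
def HadamardOrder (h : ℕ) : Prop := ∃ K : Matrix (Fin h) (Fin h) ℝ, HadamardMat K

/-- `r ≥ 1` is the order of a Hadamard matrix with constant row sums. -/
def RegularOrder (r : ℕ) : Prop :=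
  1 ≤ r ∧ ∃ (R : Matrix (Fin r) (Fin r) ℝ) (p : ℝ), HadamardMat R ∧ ∀ i, ∑ j, R i j = p

/-- `v ≥ 1` is the length of a periodic Golay pair: there are `a, b : ℤ/v → {1, -1}` with
`∑ x, (a(x) a(x+s) + b(x) b(x+s)) = 0` for every `s ≠ 0`. -/
def GolayLength (v : ℕ) : Prop :=
  ∃ (_ : NeZero v) (a b : ZMod v → ℝ), (∀ x, a x = 1 ∨ a x = -1) ∧ (∀ x, b x = 1 ∨ b x = -1) ∧
    ∀ s, s ≠ 0 → ∑ x, (a x * a (x + s) + b x * b (x + s)) = 0

/-- `n = m + 2` with `m ≥ 1` such that
* there is a Hadamard matrix `H` of order `m` and there are `m × 2` sign matrices `B`, `C` with orthogonal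
  columns and `H C = B P` for a real `2 × 2` matrix `P` (`Pair m`), or
* `m = h^2 r`, `h ≥ 2` the order of a Hadamard matrix, `r` the order of a Hadamard matrix with constant
  row sums, or
* `m = 2 v r`, `v` the length of a periodic Golay pair, `r` the order of a Hadamard matrix with constant
  row sums

(`r = 1`, and `r` the square of the order of a Hadamard matrix, are allowed: see `regularOrder_sq`). -/
def BorderedOrder (n : ℕ) : Prop :=
  ∃ m : ℕ, 1 ≤ m ∧ n = m + 2 ∧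
    (Pair m ∨
      (∃ h r : ℕ, 2 ≤ h ∧ HadamardOrder h ∧ RegularOrder r ∧ m = h ^ 2 * r) ∨
      (∃ v r : ℕ, GolayLength v ∧ RegularOrder r ∧ m = 2 * v * r))

/-- The square of the order of a Hadamard matrix is the order of a Hadamard matrix with constant row
sums. -/
theorem regularOrder_sq {h : ℕ} (hh : 1 ≤ h) (hK : HadamardOrder h) : RegularOrder (h ^ 2) := by
  obtain ⟨K, hK⟩ := hK
  obtain ⟨R, hR, hrow⟩ := reg_sq hK
  rw [sq]
  exact ⟨Nat.mul_pos hh hh, R, _, hR, hrow⟩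

lemma lt_rMax_sq {n : ℕ} (h : BorderedOrder n) : 1 ≤ n ∧ (n : ℝ) - 1 < rMax n ^ 2 := by
  obtain ⟨m, hm, rfl, h⟩ := h
  refine ⟨by omega, ?_⟩
  have hp : Pair m := by
    rcases h with h | ⟨h, r, hh, ⟨K, hK⟩, ⟨hr, R, p, hR, hrow⟩, rfl⟩ |
      ⟨v, r, ⟨hv, a, b, ha, hb, hab⟩, ⟨hr, R, p, hR, hrow⟩, rfl⟩
    · exact h
    · rw [sq h]
      exact pair_reg (pair_sq hh hK) hR hrow
    · exact pair_reg (pair_golay a b ha hb hab) hR hrow
  exact hp.lt_rMax_sq hm

/-- `r_n` is attained by some sign matrix, and every `n × n` sign matrix attaining `r_n` is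
invertible. -/
def AllInvertible (n : ℕ) : Prop :=
  (∃ M : Matrix (Fin n) (Fin n) ℝ, IsSign M ∧ schurNorm M = rMax n) ∧
    ∀ M : Matrix (Fin n) (Fin n) ℝ, IsSign M → schurNorm M = rMax n → IsUnit M

theorem allInvertible_of {n : ℕ} (h : BorderedOrder n) : AllInvertible n := by
  obtain ⟨hn, h1⟩ := lt_rMax_sq h
  refine ⟨exists_maximizer n, fun M hM hr => ?_⟩
  rw [Matrix.isUnit_iff_isUnit_det, isUnit_iff_ne_zero]
  have h2 : 0 ≤ (n : ℝ) - 1 := by
    have : (1 : ℝ) ≤ n := by exact_mod_cast hn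
    linarith
  have h3 : 0 < rMax n := by
    refine lt_of_le_of_ne (rMax_nonneg n) fun h0 => ?_
    rw [← h0] at h1
    norm_num at h1
    linarith
  exact det_ne_zero_of_lt (sqrt_lt_rMax h1 h3) hM hr

/-- A Hadamard matrix of order `2`. -/
theorem hadamardOrder_two : HadamardOrder 2 := by
  refine ⟨!![1, 1; 1, -1], ?_, ?_⟩
  · intro i j
    fin_cases i <;> fin_cases j <;> simp
  · ext i j
    fin_cases i <;> fin_cases j <;> simp [Matrix.mul_apply, Fin.sum_univ_two] <;> norm_num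

theorem pair_four {m : ℕ} (h : Pair m) : Pair (m * 4) := by
  obtain ⟨K, hK⟩ := hadamardOrder_two
  obtain ⟨R, hR, hrow⟩ := reg_sq hK
  exact pair_reg h hR hrow

theorem pair_mul_pow {m : ℕ} (h : Pair m) (j : ℕ) : Pair (m * 4 ^ j) := by
  induction j with
  | zero => simpa using h
  | succ j ih =>
    rw [pow_succ, ← mul_assoc]
    exact pair_four ih

theorem pair_two_pow (j : ℕ) : Pair (2 ^ (j + 1)) := by
  have h4 : Pair 4 := by
    obtain ⟨K, hK⟩ := hadamardOrder_two
    exact pair_sq le_rfl hK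
  obtain ⟨i, hi | hi⟩ : ∃ i, j + 1 = 2 * i + 1 ∨ j + 1 = 2 * i + 2 := by
    rcases Nat.even_or_odd' j with ⟨i, hi | hi⟩
    · exact ⟨i, Or.inl (by omega)⟩
    · exact ⟨i, Or.inr (by omega)⟩
  · rw [hi, pow_add, pow_mul, pow_one, mul_comm]
    exact pair_mul_pow pair_two i
  · rw [hi, pow_add, pow_mul, mul_comm]
    exact pair_mul_pow h4 i

/-- If `n` is a bordered order, then `r_n` is attained by some sign matrix and every `n × n` sign matrix
attaining `r_n` is invertible. The orders `2^(j+1) + 2`, `20 * 4^j + 2` and `52 * 4^j + 2` are bordered. -/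
theorem result :
    (∀ n : ℕ, BorderedOrder n → AllInvertible n) ∧
      ∀ j : ℕ, AllInvertible (2 ^ (j + 1) + 2) ∧ AllInvertible (20 * 4 ^ j + 2) ∧
        AllInvertible (52 * 4 ^ j + 2) := by
  have key : ∀ m : ℕ, 1 ≤ m → Pair m → AllInvertible (m + 2) := fun m hm h =>
    allInvertible_of ⟨m, hm, rfl, Or.inl h⟩
  refine ⟨fun n h => allInvertible_of h, fun j => ⟨?_, ?_, ?_⟩⟩
  · exact key _ Nat.one_le_two_pow (pair_two_pow j)
  · exact key _ (Nat.mul_pos (by norm_num) (pow_pos (by norm_num) j)) (pair_mul_pow pair_twenty j)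
  · exact key _ (Nat.mul_pos (by norm_num) (pow_pos (by norm_num) j)) (pair_mul_pow pair_fiftytwo j)

end Pool.Agent.Results.MP_abf7f7_an.BorderedOrders
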