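import Pool.Agent.H.MP_abf7f7_an.EhB

set_option autoImplicit false

namespace Pool.Agent.Results.MP_abf7f7_an.HadamardAndConference

open Matrix Pool.Agent.H.MP_abf7f7_an

/-- `n` is `m - 1`, `m` or `m + 1` for some `m ≥ 1` for which a Hadamard matrix of order `m`
exists, or `n ≥ 2` and there is a conference matrix of order `n`, or `n` is `2 v` or `4 v` for some
`v ≥ 2` such that `v = q ^ 2 + q + 1` for a prime power `q` or an Ehlich-Wojtas matrix of order `2 v`
exists. -/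
def GoodOrder (n : ℕ) : Prop :=
  (∃ m : ℕ, 1 ≤ m ∧ (n + 1 = m ∨ n = m ∨ n = m + 1) ∧
    ∃ H : Matrix (Fin m) (Fin m) ℝ, HadamardMat H) ∨
  (2 ≤ n ∧ ∃ C : Matrix (Fin n) (Fin n) ℝ, ConferenceMat C) ∨
  (∃ v : ℕ, 2 ≤ v ∧ (n = 2 * v ∨ n = 4 * v) ∧
    ((∃ q : ℕ, IsPrimePow q ∧ v = q ^ 2 + q + 1) ∨
      ∃ M : Matrix (Fin v ⊕ Fin v) (Fin v ⊕ Fin v) ℝ, EhlichMat M))

lemma lt_rMax_sq {n : ℕ} (hn : 1 ≤ n) (h : GoodOrder n) : (n : ℝ) - 1 < rMax n ^ 2 := by
  rcases h with ⟨m, hm, hm', H, hH⟩ | ⟨h2, C, hC⟩ | ⟨v, hv, hnv, hq⟩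
  · rcases hm' with h | h | h
    · subst h
      exact rMax_of_hadamard_succ hn hH
    · subst h
      have h0 : 0 < n := hn
      have := rMax_of_hadamard h0 hH
      linarith
    · subst h
      have h0 : 0 < m := hm
      have := rMax_of_hadamard_pred h0 hH
      push_cast
      linarith
  · obtain ⟨k, rfl⟩ : ∃ k, n = k + 1 := ⟨n - 1, by omega⟩
    have h0 : 0 < k := by omega
    have := rMax_of_conference h0 hC
    push_cast
    linarith
  · have h1 : ∃ M : Matrix (Fin v ⊕ Fin v) (Fin v ⊕ Fin v) ℝ, EhlichMat M := by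
      rcases hq with ⟨q, hq, rfl⟩ | h1
      · exact exists_ehlich hq
      · exact h1
    obtain ⟨M, hM⟩ := h1
    obtain ⟨h2, h3⟩ := rMax_of_ehlich hv hM
    rcases hnv with rfl | rfl
    · linarith
    · exact h3

/-- If `n ≥ 1` is a good order, then `r_n` is attained by some sign matrix, and every `n × n` sign
matrix attaining `r_n` is invertible. -/
theorem result (n : ℕ) (hn : 1 ≤ n) (h : GoodOrder n) :
    (∃ M : Matrix (Fin n) (Fin n) ℝ, IsSign M ∧ schurNorm M = rMax n) ∧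
      ∀ M : Matrix (Fin n) (Fin n) ℝ, IsSign M → schurNorm M = rMax n → IsUnit M := by
  refine ⟨exists_maximizer n, fun M hM hr => ?_⟩
  rw [Matrix.isUnit_iff_isUnit_det, isUnit_iff_ne_zero]
  have h1 := lt_rMax_sq hn h
  have h2 : 0 ≤ (n : ℝ) - 1 := by
    have : (1 : ℝ) ≤ n := by exact_mod_cast hn
    linarith
  have h3 : 0 < rMax n := by
    refine lt_of_le_of_ne (rMax_nonneg n) fun h0 => ?_
    rw [← h0] at h1
    norm_num at h1
    linarith
  exact det_ne_zero_of_lt (sqrt_lt_rMax h1 h3) hM hr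

end Pool.Agent.Results.MP_abf7f7_an.HadamardAndConference
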