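import Pool.Agent.H.MP_abf7f7_an.RK.Rank
import Pool.Agent.H.MP_abf7f7_an.RK.Ord
import Pool.Agent.H.MP_abf7f7_an.RK.Dens

set_option autoImplicit false

namespace Pool.Agent.Results.MP_abf7f7_an.NearlyFullRank

open Matrix Pool.Agent.H.MP_abf7f7_an

/-- `r_n^2 ≥ (1 - ε) n` for all large `n`. -/
lemma rMax_sq_ge {ε : ℝ} (hε : 0 < ε) :
    ∃ n₀ : ℕ, ∀ n ≥ n₀, (1 - ε) * (n : ℝ) ≤ rMax n ^ 2 := by
  obtain ⟨n₀, hn₀⟩ := exists_pow_mul_pow hε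
  refine ⟨n₀, fun n hn => ?_⟩
  obtain ⟨a, b, h1, h2⟩ := hn₀ n hn
  obtain ⟨h3, H, hH⟩ := hadOrder_pow a b
  have h4 := rMax_of_hadamard h3 hH
  have h5 : rMax (2 ^ a * 12 ^ b) ^ 2 ≤ rMax n ^ 2 := by
    rcases h2.eq_or_lt with h | h
    · rw [h]
    · exact (rMax_sq_lt h3 h).le
  exact h1.trans (h4.trans h5)

/-- A sign matrix with Schur norm at least `θ r_n` has rank at least `θ^2 r_n^2`. -/
lemma rank_ge {n : ℕ} {θ : ℝ} (hθ : 0 ≤ θ) {M : Matrix (Fin n) (Fin n) ℝ} (hM : IsSign M)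
    (h : θ * rMax n ≤ schurNorm M) : θ ^ 2 * rMax n ^ 2 ≤ (M.rank : ℝ) := by
  have h2 := schurNorm_sq_le_rank hM
  have h4 := pow_le_pow_left₀ (mul_nonneg hθ (rMax_nonneg n)) h 2
  rw [mul_pow] at h4
  exact h4.trans h2

/-- Let `0 < θ ≤ 1` and let `M` be an `n × n` sign matrix with Schur norm at least `θ r_n`. If
there is a Hadamard matrix of order `m`, `1 ≤ m < n`, then `rank M > θ^2 m` (for `θ = 1`, i.e. if
`M` attains `r_n`, the rank is at least `m + 1`). For every `ε > 0` there is `n₀`, independent of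
`θ`, such that `rank M ≥ (θ^2 - ε) n` for `n ≥ n₀`. -/
theorem result :
    (∀ m n : ℕ, 1 ≤ m → m < n → (∃ H : Matrix (Fin m) (Fin m) ℝ, HadamardMat H) →
      ∀ θ : ℝ, 0 < θ → θ ≤ 1 → ∀ M : Matrix (Fin n) (Fin n) ℝ, IsSign M →
        θ * rMax n ≤ schurNorm M → θ ^ 2 * (m : ℝ) < (M.rank : ℝ)) ∧
    (∀ ε : ℝ, 0 < ε → ∃ n₀ : ℕ, ∀ n ≥ n₀,
      ∀ θ : ℝ, 0 < θ → θ ≤ 1 → ∀ M : Matrix (Fin n) (Fin n) ℝ, IsSign M →
        θ * rMax n ≤ schurNorm M → (θ ^ 2 - ε) * (n : ℝ) ≤ (M.rank : ℝ)) := by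
  refine ⟨fun m n hm h hH θ hθ _ M hM hMθ => ?_, fun ε hε => ?_⟩
  · obtain ⟨H, hH⟩ := hH
    have h1 := rMax_of_hadamard hm hH
    have h2 := rMax_sq_lt hm h
    have h3 := rank_ge hθ.le hM hMθ
    have h4 : θ ^ 2 * (m : ℝ) < θ ^ 2 * rMax n ^ 2 :=
      mul_lt_mul_of_pos_left (lt_of_le_of_lt h1 h2) (pow_pos hθ 2)
    linarith
  · obtain ⟨n₀, hn₀⟩ := rMax_sq_ge hε
    refine ⟨n₀, fun n hn θ hθ hθ1 M hM hMθ => ?_⟩
    have h1 := hn₀ n hn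
    have h3 := rank_ge hθ.le hM hMθ
    have hn0 : (0 : ℝ) ≤ n := Nat.cast_nonneg n
    have h4 : θ ^ 2 * ((1 - ε) * (n : ℝ)) ≤ θ ^ 2 * rMax n ^ 2 :=
      mul_le_mul_of_nonneg_left h1 (sq_nonneg _)
    have h5 : (θ ^ 2 - ε) * (n : ℝ) ≤ θ ^ 2 * ((1 - ε) * (n : ℝ)) := by
      have h6 : θ ^ 2 ≤ 1 := by nlinarith
      have h7 : 0 ≤ ε * (1 - θ ^ 2) * n :=
        mul_nonneg (mul_nonneg hε.le (by linarith)) hn0
      nlinarith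
    linarith

end Pool.Agent.Results.MP_abf7f7_an.NearlyFullRank
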