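import Pool.Agent.H.MP_abf7f7_an.Step

set_option autoImplicit false

namespace Pool.Agent.Results.MP_abf7f7_an.StrictlyIncreasing

open Matrix Pool.Agent.H.MP_abf7f7_an

/-- For every `n ≥ 1` one has `r_{n+1}^2 ≥ r_n^2 + 1/n`; in particular `r_n` is strictly
increasing. -/
theorem result (n : ℕ) (hn : 1 ≤ n) : rMax n ^ 2 + 1 / n ≤ rMax (n + 1) ^ 2 :=
  rMax_step n hn

end Pool.Agent.Results.MP_abf7f7_an.StrictlyIncreasing
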